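import Pool.Agent.Helper61.QS.GoalsC

/-!
# Project QS (MP_0ebdb3_gt): proof of `G_C0`
-/

set_option autoImplicit false

open Set

namespace Pool.Agent.Helper34.QS

open Pool.Agent.Helper61.QS

theorem fract_per {E : Type*} (f : ℝ → E) (hf : ∀ x, f (x + 2 * Real.pi) = f x) (x : ℝ) :
    f (2 * Real.pi * Int.fract (x / (2 * Real.pi))) = f x := by
  have hper : Function.Periodic f (2 * Real.pi) := hf
  have h : 2 * Real.pi * Int.fract (x / (2 * Real.pi)) =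
      x - (⌊x / (2 * Real.pi)⌋ : ℝ) * (2 * Real.pi) := by
    rw [← Int.self_sub_floor]
    have : (2 * Real.pi) ≠ 0 := by positivity
    field_simp
  rw [h]
  exact hper.sub_int_mul_eq _

theorem fract_shift (x : ℝ) :
    Int.fract ((x + 2 * Real.pi) / (2 * Real.pi)) = Int.fract (x / (2 * Real.pi)) := by
  have : (2 * Real.pi) ≠ 0 := by positivity
  rw [add_div, div_self this, Int.fract_add_one]

theorem fract_mem (x : ℝ) : Int.fract x ∈ Icc (0 : ℝ) 1 :=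
  ⟨Int.fract_nonneg x, (Int.fract_lt_one x).le⟩

/-- **C-C0**. -/
theorem goalC0 (hCP : G_CP) (hCLB : G_CLB) (hPER : G_PER) : G_C0 := by
  intro k hN hS Ψ L
  have rel : ∀ α β, Ψ β * hN α = hS α * Ψ β := fun α β ↦ by
    have := L.rel α β
    simpa using this
  have hNS : hN = hS := by
    funext α
    have := rel α 0
    rw [L.Ψ0, one_mul, mul_one] at this
    exact this
  subst hNS
  -- first path
  set S₁ : Set (En k) := range Ψ with hS₁
  set p : ℝ → En k := fun t ↦ hN (2 * Real.pi * t) with hp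
  have hpath : IsPath S₁ p := by
    refine ⟨(L.cN.comp (by fun_prop)).continuousOn, fun t _ ↦ ⟨L.uN _, ?_⟩⟩
    rintro _ ⟨β, rfl⟩
    exact rel _ _
  have hp0 : p 0 = 1 := by simp only [hp, mul_zero]; exact L.N0
  have hp1 : p 1 = 1 := by
    have := L.pN 0
    rw [zero_add, L.N0] at this
    simp only [hp, mul_one]; exact this
  obtain ⟨a, q, ha, ⟨H, Hc, HU, H01, He⟩, hq⟩ := hCP k S₁ p hpath hp0
  have HH : ∀ s ∈ Icc (0 : ℝ) 1, H s 0 = H s 1 := fun s hs ↦ by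
    rw [(He s hs).1, (He s hs).2, hp0, hp1]
  -- second path
  set p' : ℝ → En k := fun t ↦ Ψ (2 * Real.pi * t) with hp'
  have hpath' : IsPath {a} p' := by
    refine ⟨(L.cΨ.comp (by fun_prop)).continuousOn, fun t _ ↦ ⟨L.uΨ _, ?_⟩⟩
    intro s hs
    rw [mem_singleton_iff] at hs
    rw [hs]
    exact (ha.2 _ (mem_range_self _)).symm
  have hp'0 : p' 0 = 1 := by simp only [hp', mul_zero]; exact L.Ψ0
  have hp'1 : p' 1 = 1 := by
    have := L.pΨ 0
    rw [zero_add, L.Ψ0] at this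
    simp only [hp', mul_one]; exact this
  obtain ⟨a₂, q', ha₂, ⟨H', Hc', HU', H01', He'⟩, hq'⟩ := hCP k {a} p' hpath' hp'0
  have HH' : ∀ s ∈ Icc (0 : ℝ) 1, H' s 0 = H' s 1 := fun s hs ↦ by
    rw [(He' s hs).1, (He' s hs).2, hp'0, hp'1]
  have h0 : (0 : ℝ) ∈ Icc (0 : ℝ) 1 := ⟨le_rfl, zero_le_one⟩
  have h1 : (1 : ℝ) ∈ Icc (0 : ℝ) 1 := ⟨zero_le_one, le_rfl⟩
  set κ : ℝ → ℝ → En k := fun s α ↦ star (hN α) * H s (Int.fract (α / (2 * Real.pi))) with hκ
  set Φ : ℝ → ℝ → En k := fun s β ↦ H' s (Int.fract (β / (2 * Real.pi))) with hΦ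
  have hnn : ∀ α, hN α * star (hN α) = 1 := fun α ↦ (Unitary.mem_iff.1 (L.uN α)).2
  have hnn' : ∀ α, star (hN α) * hN α = 1 := fun α ↦ (Unitary.mem_iff.1 (L.uN α)).1
  have hκ1 : ∀ α, hN α * κ 1 α = q (Int.fract (α / (2 * Real.pi))) := fun α ↦ by
    simp only [hκ]
    rw [← mul_assoc, hnn, one_mul]
    exact (H01 _ (fract_mem _)).2
  have hΦU : ∀ s ∈ Icc (0 : ℝ) 1, ∀ β, Φ s β ∈ UC ({a} : Set (En k)) := fun s hs β ↦
    HU' s hs _ (fract_mem _)
  have hΦa : ∀ s ∈ Icc (0 : ℝ) 1, ∀ β, Φ s β * a = a * Φ s β := fun s hs β ↦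
    ((hΦU s hs β).2 a rfl).symm
  obtain ⟨N, π, hπ1, hπ2, hπ3, hπ4⟩ := hCLB k {a, a₂} (by
    have haa : a * a₂ = a₂ * a := ha₂.2 a rfl
    rintro x (rfl | rfl) y (rfl | rfl)
    · exact ⟨rfl, comm_star ha.1 rfl⟩
    · exact ⟨haa, comm_star ha₂.1 haa⟩
    · exact ⟨haa.symm, comm_star ha.1 haa.symm⟩
    · exact ⟨rfl, comm_star ha₂.1 rfl⟩)
  have hπΦ : ∀ j β, star (Φ 1 β) * π j * Φ 1 β = π j := by
    intro j β
    have h2 : π j * Φ 1 β = Φ 1 β * π j := by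
      have h3 : Φ 1 β = q' (Int.fract (β / (2 * Real.pi))) := (H01' _ (fract_mem _)).2
      rw [h3]
      exact hq' _ (fract_mem _) _ ((hπ1 j).2.2 a₂ (by simp)).symm
    rw [mul_assoc, h2, ← mul_assoc, UC.star_mul (hΦU 1 h1 β), one_mul]
  refine ⟨κ, Φ, ?_, ?_, ?_, ?_, ?_, ?_, ?_, ?_, N, π, ?_, hπ2, hπ3, hπ4⟩
  · refine ContinuousOn.mul ?_ (hPER k H Hc HH)
    exact ((continuous_star.comp L.cN).comp continuous_snd).continuousOn
  · exact hPER k H' Hc' HH'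
  · intro s hs x
    refine ⟨Submonoid.mul_mem _ (Unitary.star_mem (L.uN x)) (HU s hs _ (fract_mem _)).1,
      (hΦU s hs x).1, ?_, ?_⟩
    · simp only [hκ, fract_shift, L.pN]
    · simp only [hΦ, fract_shift]
  · intro α
    simp only [hκ]
    rw [(H01 _ (fract_mem _)).1]
    simp only [hp]
    rw [fract_per hN L.pN, hnn']
  · intro s hs
    simp only [hκ]
    rw [zero_div, Int.fract_zero, (He s hs).1, hp0, L.N0, star_one, one_mul]
  · intro β
    simp only [hΦ]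
    rw [(H01' _ (fract_mem _)).1]
    simp only [hp']
    exact fract_per Ψ L.pΨ β
  · intro s hs α β
    have e1 : Ψ β * star (hN α) = star (hN α) * Ψ β := comm_star (L.uN α) (rel α β)
    have e2 : Ψ β * H s (Int.fract (α / (2 * Real.pi))) =
        H s (Int.fract (α / (2 * Real.pi))) * Ψ β :=
      (HU s hs _ (fract_mem _)).2 _ (mem_range_self _)
    simp only [hκ]
    rw [← mul_assoc, e1, mul_assoc, e2, mul_assoc]
  · intro s hs α β
    rw [hκ1]
    have : β - ((0 : ℤ) : ℝ) * α = β := by simp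
    rw [this]
    exact hq _ (fract_mem _) _ (hΦa s hs β)
  · intro j
    refine ⟨(hπ1 j).1, (hπ1 j).2.1, fun α ↦ ?_, fun β ↦ ?_⟩
    · rw [hκ1]
      exact (hq _ (fract_mem _) _ ((hπ1 j).2.2 a (by simp)).symm).symm
    · rw [hπΦ, hπΦ]

end Pool.Agent.Helper34.QS
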